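import Pool.Agent.H90.BX.FDef

set_option autoImplicit false

/-! Greedy matchings for the raising lemma (MP_d0d043_co, block R). -/

namespace Pool.H90BX.H44

open Finset Pool.H90BX
open scoped Classical

variable {V : Type} [Fintype V] [DecidableEq V] {r : ℕ}

/-- raising pairs -/
def RP (l : LS V) (val : Fin r → ℤ) (M : V → (Lb × Fin r) × (Lb × Fin r)) (v w : V) : Prop :=
  ∃ b b', REdge l val M v w b b'

theorem RP.ne {l : LS V} {val : Fin r → ℤ} {M : V → (Lb × Fin r) × (Lb × Fin r)} {v w : V}
    (h : RP l val M v w) : v ≠ w := by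
  obtain ⟨b, b', h1⟩ := h; exact h1.1

/-- q vertices outside X with many neighbours -/
theorem star_raise {l : LS V} {val : Fin r → ℤ} {M : V → (Lb × Fin r) × (Lb × Fin r)}
    {X P : Finset V} {q : ℕ} (hP : q + X.card ≤ P.card)
    (hdeg : ∀ v ∈ P, 2 * q + X.card ≤ (univ.filter (fun w => RP l val M v w)).card) :
    Raises l val M X q := by
  have h1 : q ≤ (P \ X).card := by
    have := le_card_sdiff X P
    omega
  obtain ⟨P0, hP0, hc⟩ := exists_subset_card_eq h1
  -- enumeration of P0
  have e0 : Fin q ≃ P0 := (Fintype.equivFinOfCardEq (by simp [hc])).symm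
  have hin : ∀ i, (e0 i : V) ∈ P0 := fun i => (e0 i).2
  have hinj : Function.Injective (fun i => (e0 i : V)) := by
    intro i j hij
    exact e0.injective (Subtype.ext hij)
  let t : Fin q → Finset V := fun i =>
    ((univ.filter (fun w => RP l val M (e0 i : V) w)) \ X) \ P0
  have ht : ∀ i, q ≤ (t i).card := by
    intro i
    have h2 := hdeg (e0 i : V) (mem_sdiff.1 (hP0 (hin i))).1
    have h3 := le_card_sdiff X (univ.filter (fun w => RP l val M (e0 i : V) w))
    have h4 := le_card_sdiff P0 ((univ.filter (fun w => RP l val M (e0 i : V) w)) \ X)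
    show q ≤ (((univ.filter (fun w => RP l val M (e0 i : V) w)) \ X) \ P0).card
    omega
  have hall : ∀ S : Finset (Fin q), S.card ≤ (S.biUnion t).card := by
    intro S
    rcases S.eq_empty_or_nonempty with h | ⟨i, hi⟩
    · rw [h]; simp
    · calc S.card ≤ q := by simpa using card_le_univ S
        _ ≤ (t i).card := ht i
        _ ≤ _ := card_le_card (subset_biUnion_of_mem t hi)
  obtain ⟨f, hf1, hf2⟩ := (Finset.all_card_le_biUnion_card_iff_exists_injective t).1 hall
  have hf3 : ∀ i, RP l val M (e0 i : V) (f i) ∧ f i ∉ X ∧ f i ∉ P0 := by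
    intro i
    have h2 := hf2 i
    have h3 : f i ∈ ((univ.filter (fun w => RP l val M (e0 i : V) w)) \ X) \ P0 := h2
    rw [mem_sdiff, mem_sdiff, mem_filter] at h3
    exact ⟨h3.1.1.2, h3.1.2, h3.2⟩
  refine ⟨fun i => ((e0 i : V), f i), fun i => (hf3 i).1, fun i => ⟨?_, (hf3 i).2.1⟩, ?_⟩
  · have := hP0 (hin i)
    exact (mem_sdiff.1 this).2
  · intro i j hij
    refine ⟨fun h => hij (hinj h), fun h => ?_, fun h => ?_, fun h => hij (hf1 h)⟩
    · apply (hf3 j).2.2
      show f j ∈ P0
      have : (e0 i : V) = f j := h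
      rw [← this]; exact hin i
    · apply (hf3 i).2.2
      have : f i = (e0 j : V) := h
      rw [this]; exact hin j

/-- greedy matching in a graph with bounded degrees -/
theorem greedy_raise {l : LS V} {val : Fin r → ℤ} {M : V → (Lb × Fin r) × (Lb × Fin r)}
    {X : Finset V} (Rel : V → V → Prop) (hsub : ∀ v w, Rel v w → RP l val M v w)
    (hsym : ∀ v w, Rel v w → Rel w v) (D : ℕ)
    (hdeg : ∀ v, (univ.filter (fun w => Rel v w)).card ≤ D) (q : ℕ)
    (hcount : 2 * ((2 * q + X.card) * D) <
      (univ.filter (fun p : V × V => Rel p.1 p.2)).card) :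
    Raises l val M X q := by
  induction q with
  | zero =>
    exact ⟨fun i => i.elim0, fun i => i.elim0, fun i => i.elim0, fun i => i.elim0⟩
  | succ q ih =>
    have h1 : 2 * ((2 * q + X.card) * D) < (univ.filter (fun p : V × V => Rel p.1 p.2)).card := by
      refine lt_of_le_of_lt ?_ hcount
      have : (2 * q + X.card) * D ≤ (2 * (q + 1) + X.card) * D := Nat.mul_le_mul_right _ (by omega)
      omega
    obtain ⟨e, he1, he2, he3⟩ := ih h1
    -- used vertices
    let Z : Finset V := X ∪ (univ.image (fun i => (e i).1) ∪ univ.image (fun i => (e i).2))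
    have hZ : Z.card ≤ 2 * q + X.card := by
      have h2 : (univ.image (fun i => (e i).1)).card ≤ q := by
        simpa using (card_image_le (s := (univ : Finset (Fin q))) (f := fun i => (e i).1))
      have h3 : (univ.image (fun i => (e i).2)).card ≤ q := by
        simpa using (card_image_le (s := (univ : Finset (Fin q))) (f := fun i => (e i).2))
      have h4 := card_union_le X (univ.image (fun i => (e i).1) ∪ univ.image (fun i => (e i).2))
      have h5 := card_union_le (univ.image (fun i => (e i).1)) (univ.image (fun i => (e i).2))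
      show (X ∪ (univ.image (fun i => (e i).1) ∪ univ.image (fun i => (e i).2))).card ≤ _
      omega
    have hcov1 : (univ.filter (fun p : V × V => Rel p.1 p.2 ∧ p.1 ∈ Z)).card ≤ Z.card * D := by
      have h2 : univ.filter (fun p : V × V => Rel p.1 p.2 ∧ p.1 ∈ Z) ⊆
          (Z.sigma (fun v => univ.filter (fun w => Rel v w))).image (fun x => (x.1, x.2)) := by
        intro p hp
        rw [mem_filter] at hp
        rw [mem_image]
        refine ⟨⟨p.1, p.2⟩, ?_, rfl⟩
        rw [mem_sigma]
        exact ⟨hp.2.2, by rw [mem_filter]; exact ⟨mem_univ _, hp.2.1⟩⟩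
      refine (card_le_card h2).trans (card_image_le.trans ?_)
      rw [card_sigma]
      refine (sum_le_card_nsmul Z _ D fun v _ => hdeg v).trans ?_
      rw [smul_eq_mul]
    have hcov2 : (univ.filter (fun p : V × V => Rel p.1 p.2 ∧ p.2 ∈ Z)).card ≤ Z.card * D := by
      refine le_trans ?_ hcov1
      refine card_le_card_of_injOn (fun p => (p.2, p.1)) ?_ ?_
      · intro p hp
        have hp' := (mem_filter.1 (mem_coe.1 hp)).2
        rw [mem_coe, mem_filter]
        exact ⟨mem_univ _, hsym _ _ hp'.1, hp'.2⟩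
      · rintro ⟨a, b⟩ _ ⟨c, d⟩ _ h
        simp only [Prod.mk.injEq] at h ⊢
        exact ⟨h.2, h.1⟩
    have hex : ∃ p : V × V, Rel p.1 p.2 ∧ p.1 ∉ Z ∧ p.2 ∉ Z := by
      by_contra hcon
      push Not at hcon
      have h2 : univ.filter (fun p : V × V => Rel p.1 p.2) ⊆
          univ.filter (fun p : V × V => Rel p.1 p.2 ∧ p.1 ∈ Z) ∪
          univ.filter (fun p : V × V => Rel p.1 p.2 ∧ p.2 ∈ Z) := by
        intro p hp
        rw [mem_filter] at hp
        rw [mem_union, mem_filter, mem_filter]
        by_cases h : p.1 ∈ Z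
        · exact Or.inl ⟨mem_univ _, hp.2, h⟩
        · exact Or.inr ⟨mem_univ _, hp.2, hcon p hp.2 h⟩
      have h3 := (card_le_card h2).trans (card_union_le _ _)
      have h4 : Z.card * D ≤ (2 * q + X.card) * D := Nat.mul_le_mul_right _ hZ
      omega
    obtain ⟨p, hp1, hp2, hp3⟩ := hex
    have hZX : ∀ x, x ∉ Z → x ∉ X ∧ (∀ i, (e i).1 ≠ x) ∧ ∀ i, (e i).2 ≠ x := by
      intro x hx
      have hx' : x ∉ X ∪ (univ.image (fun i => (e i).1) ∪ univ.image (fun i => (e i).2)) := hx
      rw [mem_union, mem_union, not_or, not_or] at hx'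
      refine ⟨hx'.1, fun i h => hx'.2.1 ?_, fun i h => hx'.2.2 ?_⟩
      · exact mem_image.2 ⟨i, mem_univ _, h⟩
      · exact mem_image.2 ⟨i, mem_univ _, h⟩
    refine ⟨Fin.cons p e, ?_, ?_, ?_⟩
    · intro i
      refine Fin.cases ?_ (fun i => ?_) i
      · exact hsub _ _ hp1
      · exact he1 i
    · intro i
      refine Fin.cases ?_ (fun i => ?_) i
      · exact ⟨(hZX _ hp2).1, (hZX _ hp3).1⟩
      · exact he2 i
    · intro i j
      refine Fin.cases ?_ (fun i => ?_) i <;> refine Fin.cases ?_ (fun j => ?_) j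
      · intro h; exact absurd rfl h
      · intro _
        simp only [Fin.cons_zero, Fin.cons_succ]
        exact ⟨((hZX _ hp2).2.1 j).symm, ((hZX _ hp2).2.2 j).symm, ((hZX _ hp3).2.1 j).symm,
          ((hZX _ hp3).2.2 j).symm⟩
      · intro _
        simp only [Fin.cons_zero, Fin.cons_succ]
        exact ⟨((hZX _ hp2).2.1 i), ((hZX _ hp3).2.1 i), ((hZX _ hp2).2.2 i),
          ((hZX _ hp3).2.2 i)⟩
      · intro hij
        simp only [Fin.cons_succ]
        exact he3 i j (fun h => hij (by rw [h]))

end Pool.H90BX.H44
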