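import Pool.Agent.H44.BX.Greedy

set_option autoImplicit false

/-! Local facts for the raising lemma (MP_d0d043_co, block R). -/

namespace Pool.H90BX.H44

open Finset Pool.H90BX
open scoped Classical

variable {V : Type} [Fintype V] [DecidableEq V] {r : ℕ} {l : LS V} {psi : Fin r → Fin r}
  {part : V → Lb → Fin r} {val : Fin r → ℤ} {s : ℝ} {U E : Finset V} {K : Finset (Fin r)}

/-- maximal modes outside E -/
theorem mode_out (h : FC l psi part val s U K) (hE : EC l psi part val s U E)
    {M : V → (Lb × Fin r) × (Lb × Fin r)} (hM : ∀ u, IsMax val (Tab l psi part E u) (M u))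
    {v : V} (hv : v ∉ E) :
    (val (lam l part v (md l v)) < val (lam l part v (mx l v)) ∧
      M v = ((mx l v, lam l part v (mx l v)), (md l v, lam l part v (md l v)))) ∨
    (val (lam l part v (mx l v)) < val (lam l part v (md l v)) ∧
      M v = ((md l v, lam l part v (md l v)), (mx l v, lam l part v (mx l v)))) := by
  have hT : Tab l psi part E v =
      {(mx l v, lam l part v (mx l v)), (md l v, lam l part v (md l v))} := by
    unfold Tab; rw [if_neg hv]
  have h2 := h.two v (hE.sub v hv)
  obtain ⟨m1, m2, ne, top, snd⟩ := hM v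
  rw [hT] at m1 m2 top snd
  rw [mem_insert, mem_singleton] at m1 m2
  rcases m1 with h1 | h1 <;> rcases m2 with h3 | h3
  · exact absurd (by rw [h1, h3]) ne
  · left
    have h4 := top (md l v, lam l part v (md l v)) (by simp)
    rw [h1] at h4
    exact ⟨lt_of_le_of_ne h4 (Ne.symm h2), Prod.ext h1 h3⟩
  · right
    have h4 := top (mx l v, lam l part v (mx l v)) (by simp)
    rw [h1] at h4
    exact ⟨lt_of_le_of_ne h4 h2, Prod.ext h1 h3⟩
  · exact absurd (by rw [h1, h3]) ne

/-- the basic view -/
noncomputable def dr0 (M : V → (Lb × Fin r) × (Lb × Fin r)) (v : V) (j : Lb) : Bool :=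
  decide (j = (M v).1.1)

/-- the modified view -/
noncomputable def dr1 (M : V → (Lb × Fin r) × (Lb × Fin r)) (H : Finset V) (v : V) (j : Lb) :
    Bool := if v ∈ H then decide (j ≠ (M v).2.1) else decide (j = (M v).1.1)

theorem view0 {M : V → (Lb × Fin r) × (Lb × Fin r)}
    (hM : ∀ u, IsMax val (Tab l psi part E u) (M u)) : View M (dr0 M) := by
  refine ⟨fun v j h => ?_, fun v j h => ?_⟩
  · have h1 : j = (M v).1.1 := by simpa [dr0] using h
    rw [h1]; exact (hM v).ne.symm
  · have h1 : ¬ j = (M v).1.1 := by simpa [dr0] using h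
    exact fun h2 => h1 h2.symm

theorem view1 {M : V → (Lb × Fin r) × (Lb × Fin r)}
    (hM : ∀ u, IsMax val (Tab l psi part E u) (M u)) (H : Finset V) : View M (dr1 M H) := by
  refine ⟨fun v j h => ?_, fun v j h => ?_⟩
  · by_cases hv : v ∈ H
    · have h1 : ¬ j = (M v).2.1 := by simpa [dr1, hv] using h
      exact fun h2 => h1 h2.symm
    · have h1 : j = (M v).1.1 := by simpa [dr1, hv] using h
      rw [h1]; exact (hM v).ne.symm
  · by_cases hv : v ∈ H
    · have h1 : j = (M v).2.1 := by simpa [dr1, hv] using h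
      rw [h1]; exact (hM v).ne
    · have h1 : ¬ j = (M v).1.1 := by simpa [dr1, hv] using h
      exact fun h2 => h1 h2.symm

/-- raising pairs of a view are raising pairs -/
theorem rad_RP {M : V → (Lb × Fin r) × (Lb × Fin r)} {dr : V → Lb → Bool} (hV : View M dr)
    {v w : V} (h : Rad l val M dr v w) : RP l val M v w := by
  have key : ∀ (x : V) (j : Lb), ∃ b, (sel b (M x)).1 ≠ j ∧
      val (sel (!b) (M x)).2 = fv val M dr x j := by
    intro x j
    rcases hb : dr x j with _ | _
    · refine ⟨true, hV.ok2 x j hb, ?_⟩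
      simp [sel, fv, hb]
    · refine ⟨false, hV.ok1 x j hb, ?_⟩
      simp [sel, fv, hb]
  obtain ⟨b, hb1, hb2⟩ := key v (l v w)
  obtain ⟨b', hb3, hb4⟩ := key w (l w v)
  exact ⟨b, b', h.1, hb1, hb3, by rw [hb2, hb4]; exact h.2⟩

theorem rad_symm {M : V → (Lb × Fin r) × (Lb × Fin r)} {dr : V → Lb → Bool}
    {v w : V} (h : Rad l val M dr v w) : Rad l val M dr w v :=
  ⟨h.1.symm, by rw [add_comm]; exact h.2⟩

theorem top_le {M : V → (Lb × Fin r) × (Lb × Fin r)}
    (hM : ∀ u, IsMax val (Tab l psi part E u) (M u)) (v : V) :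
    val (M v).2.2 ≤ val (M v).1.2 := (hM v).top _ (hM v).m2

/-- the modified view drops at least as much -/
theorem fv_mono {M : V → (Lb × Fin r) × (Lb × Fin r)}
    (hM : ∀ u, IsMax val (Tab l psi part E u) (M u)) (H : Finset V) (v : V) (j : Lb) :
    fv val M (dr0 M) v j ≤ fv val M (dr1 M H) v j := by
  have h1 := top_le hM v
  have h2 := (hM v).ne
  unfold fv dr0 dr1
  by_cases hv : v ∈ H
  · by_cases hj : j = (M v).1.1
    · have h3 : ¬ j = (M v).2.1 := by rw [hj]; exact h2
      simp [hv, hj, h2]
    · by_cases h3 : j = (M v).2.1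
      · simp [hv, h3]
        rw [if_neg (Ne.symm h2)]
      · simp [hv, hj, h3, h1]
  · simp [hv]

theorem rad_mono {M : V → (Lb × Fin r) × (Lb × Fin r)}
    (hM : ∀ u, IsMax val (Tab l psi part E u) (M u)) (H : Finset V) {v w : V}
    (h : Rad l val M (dr1 M H) v w) : Rad l val M (dr0 M) v w := by
  have h1 := fv_mono hM H v (l v w)
  have h2 := fv_mono hM H w (l w v)
  exact ⟨h.1, by have := h.2; omega⟩

/-- outside E the drop function is the value of the class, except for the label mn -/
def Good (l : LS V) (part : V → Lb → Fin r) (val : Fin r → ℤ) (E : Finset V)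
    (M : V → (Lb × Fin r) × (Lb × Fin r)) (dr : V → Lb → Bool) : Prop :=
  ∀ w, w ∉ E → ∀ x, x ≠ w → fv val M dr w (l w x) = val (lam l part w (l w x)) ∨
    (l w x = mn l w ∧ val (lam l part w (mx l w)) < val (lam l part w (md l w)))

/-- vertices outside E have three classes -/
theorem T3_out (h : FC l psi part val s U K) (hE : EC l psi part val s U E) {v : V}
    (hv : v ∉ E) : T3 l v := by
  rcases h.bdd.2 v with h3 | h4
  · exact h3
  · exfalso
    have h1 := h.half v (hE.sub v hv)
    rw [T4_cntR h4] at h1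
    have h2 := NN_ge h.bdd v
    have h3 := h.s1
    have h5 : s * NN V ≤ 1 / 10 ^ 9 * NN V := mul_le_mul_of_nonneg_right h3 (by linarith)
    norm_num at h5
    linarith

theorem good0 (h : FC l psi part val s U K) (hE : EC l psi part val s U E)
    {M : V → (Lb × Fin r) × (Lb × Fin r)} (hM : ∀ u, IsMax val (Tab l psi part E u) (M u)) :
    Good l part val E M (dr0 M) := by
  intro w hw x hx
  have h3 := T3_out h hE hw
  have hu := T3_used h3 hx
  have hne1 := mx_ne_md l w
  have hne2 := mx_ne_mn l w
  have hne3 := md_ne_mn l w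
  rcases mode_out h hE hM hw with ⟨h1, h2⟩ | ⟨h1, h2⟩
  · left
    rcases hu with hj | hj | hj
    · simp [fv, dr0, h2, hj]
    · simp [fv, dr0, h2, hj, hne1.symm]
    · rw [hj, lam_mn, ← lam_md l part w]
      simp [fv, dr0, h2, hne2.symm]
  · rcases hu with hj | hj | hj
    · left; simp [fv, dr0, h2, hj, hne1]
    · left; simp [fv, dr0, h2, hj]
    · right; exact ⟨hj, h1⟩

/-- at exceptional vertices the modified drop function is the value of the class -/
theorem fv1_exc (h : FC l psi part val s U K) (hE : EC l psi part val s U E)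
    {M : V → (Lb × Fin r) × (Lb × Fin r)} (hM : ∀ u, IsMax val (Tab l psi part E u) (M u))
    {H : Finset V} {w : V} (hw : w ∉ E) (hH : w ∈ H)
    (hx : val (lam l part w (mx l w)) < val (lam l part w (md l w))) (j : Lb) :
    fv val M (dr1 M H) w j = val (lam l part w j) := by
  have hne1 := mx_ne_md l w
  rcases mode_out h hE hM hw with ⟨h1, h2⟩ | ⟨h1, h2⟩
  · omega
  · by_cases hj : j = mx l w
    · simp [fv, dr1, h2, hj, hH]
    · rw [lam_of_ne l part w hj, ← lam_md l part w]
      simp [fv, dr1, h2, hj, hH]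

theorem good1 (h : FC l psi part val s U K) (hE : EC l psi part val s U E)
    {M : V → (Lb × Fin r) × (Lb × Fin r)} (hM : ∀ u, IsMax val (Tab l psi part E u) (M u))
    {H : Finset V} (hH : ∀ v ∈ H, v ∉ E ∧
      val (lam l part v (mx l v)) < val (lam l part v (md l v))) :
    Good l part val E M (dr1 M H) := by
  intro w hw x hx
  by_cases hwH : w ∈ H
  · left
    exact fv1_exc h hE hM hw hwH (hH w hwH).2 _
  · have h0 := good0 h hE hM w hw x hx
    have h1 : fv val M (dr1 M H) w (l w x) = fv val M (dr0 M) w (l w x) := by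
      simp [fv, dr1, dr0, hwH]
    rw [h1]; exact h0

/-- dropped values outside E -/
theorem drop_out (h : FC l psi part val s U K) (hE : EC l psi part val s U E)
    {M : V → (Lb × Fin r) × (Lb × Fin r)} (hM : ∀ u, IsMax val (Tab l psi part E u) (M u))
    {w : V} (hw : w ∉ E) (j : Lb) :
    ∃ k, k ≠ j ∧ (k = mx l w ∨ k = md l w) ∧ part w k ∈ K ∧
      val (part w k) = fv val M (dr0 M) w j := by
  have hne1 := mx_ne_md l w
  have hK := h.kin w (hE.sub w hw)
  have hK1 : part w (md l w) ∈ K := by rw [← lam_mx l part w]; exact hK.1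
  have hK2 : part w (mx l w) ∈ K := by rw [← lam_md l part w]; exact hK.2
  rcases mode_out h hE hM hw with ⟨h1, h2⟩ | ⟨h1, h2⟩
  · by_cases hj : j = mx l w
    · refine ⟨md l w, by rw [hj]; exact hne1.symm, Or.inr rfl, hK1, ?_⟩
      simp [fv, dr0, h2, hj, lam_mx]
    · refine ⟨mx l w, Ne.symm hj, Or.inl rfl, hK2, ?_⟩
      simp [fv, dr0, h2, hj, lam_md]
  · by_cases hj : j = md l w
    · refine ⟨mx l w, by rw [hj]; exact hne1, Or.inl rfl, hK2, ?_⟩
      simp [fv, dr0, h2, hj, lam_md]
    · refine ⟨md l w, Ne.symm hj, Or.inr rfl, hK1, ?_⟩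
      simp [fv, dr0, h2, hj, lam_mx]

/-- degree of a vertex of E in the basic view -/
theorem deg_E (h : FC l psi part val s U K) (hE : EC l psi part val s U E)
    {M : V → (Lb × Fin r) × (Lb × Fin r)} (hM : ∀ u, IsMax val (Tab l psi part E u) (M u))
    {u : V} (hu : u ∈ E) :
    ((univ.filter (fun w => Rad l val M (dr0 M) u w)).card : ℝ) ≤ E.card + nn V / 500 := by
  let A : Lb × Fin r → Finset V := fun t => univ.filter (fun w : V => w ∉ E ∧ w ≠ u ∧
      l u w = t.1 ∧ ∃ k, k ≠ l w u ∧ (k = mx l w ∨ k = md l w) ∧ part w k = psi t.2)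
  let I : Finset (Lb × Fin r) := ((univ : Finset Lb) ×ˢ K).filter (fun t => t ∉ Tab l psi part E u)
  have hsub : univ.filter (fun w => Rad l val M (dr0 M) u w) ⊆ E ∪ I.biUnion A := by
    intro w hw
    have hw1 := (mem_filter.1 hw).2
    rw [mem_union]
    by_cases hwE : w ∈ E
    · exact Or.inl hwE
    right
    obtain ⟨k, hk1, hk2, hk3, hk4⟩ := drop_out h hE hM hwE (l w u)
    rw [mem_biUnion]
    refine ⟨(l u w, psi (part w k)), ?_, ?_⟩
    · rw [mem_filter, mem_product]
      refine ⟨⟨mem_univ _, h.kpsi _ hk3⟩, fun ht => ?_⟩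
      have h1 := hw1.2
      have h2 : val (psi (part w k)) ≤ fv val M (dr0 M) u (l u w) := by
        by_cases hj : l u w = (M u).1.1
        · have := (hM u).top _ ht
          simpa [fv, dr0, hj] using this
        · have := (hM u).snd _ ht hj
          simpa [fv, dr0, hj] using this
      rw [h.vl.anti] at h2
      omega
    · rw [mem_filter]
      exact ⟨mem_univ _, hwE, hw1.1.symm, rfl, k, hk1, hk2, by rw [h.vl.inv]⟩
  have hcI : I.card ≤ 16 := by
    refine (card_filter_le _ _).trans ?_
    rw [card_product]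
    have := h.kcard
    simp only [card_univ, Fintype.card_fin]
    omega
  have hA : ∀ t ∈ I, ((A t).card : ℝ) ≤ nn V / 8000 := by
    intro t ht
    have h1 := (mem_filter.1 ht).2
    by_contra hcon
    apply h1
    unfold Tab
    rw [if_pos hu, mem_filter]
    exact ⟨mem_univ _, le_of_lt (not_le.1 hcon)⟩
  have h1 : ((I.biUnion A).card : ℝ) ≤ 16 * (nn V / 8000) := by
    have h2 : ((I.biUnion A).card : ℝ) ≤ ∑ t ∈ I, ((A t).card : ℝ) := by
      exact_mod_cast card_biUnion_le
    have h3 : ∑ t ∈ I, ((A t).card : ℝ) ≤ I.card • (nn V / 8000) := sum_le_card_nsmul _ _ _ hA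
    rw [nsmul_eq_mul] at h3
    have h4 : (I.card : ℝ) ≤ 16 := by exact_mod_cast hcI
    have h5 : 0 ≤ nn V / 8000 := by unfold nn; positivity
    nlinarith [mul_le_mul_of_nonneg_right h4 h5]
  have h2 : ((univ.filter (fun w => Rad l val M (dr0 M) u w)).card : ℝ) ≤
      (E.card : ℝ) + (I.biUnion A).card := by
    exact_mod_cast (card_le_card hsub).trans (card_union_le _ _)
  linarith

/-- degree of a vertex outside E with regular drop function -/
theorem deg_reg (h : FC l psi part val s U K) (hE : EC l psi part val s U E)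
    {M : V → (Lb × Fin r) × (Lb × Fin r)} {dr : V → Lb → Bool}
    (hG : Good l part val E M dr) {v : V} (hv : v ∉ E) (hP : ¬ Pop l psi part val U v)
    (hr : ∀ w, w ≠ v → fv val M dr v (l v w) = val (lam l part v (l v w))) :
    ((univ.filter (fun w => Rad l val M dr v w)).card : ℝ) ≤
      E.card + s * nn V + nn V / 4000 := by
  have hsub : univ.filter (fun w => Rad l val M dr v w) ⊆
      (E ∪ univ.filter (fun w : V => w ≠ v ∧ ¬ Reg l psi part v w)) ∪
      U.filter (fun w => w ≠ v ∧ Reg l psi part v w ∧ l w v = mn l w ∧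
        val (lam l part w (mx l w)) < val (lam l part w (md l w))) := by
    intro w hw
    have hw1 := (mem_filter.1 hw).2
    have hne : w ≠ v := hw1.1.symm
    rw [mem_union, mem_union]
    by_cases hwE : w ∈ E
    · exact Or.inl (Or.inl hwE)
    by_cases hR : Reg l psi part v w
    · right
      rw [mem_filter]
      rcases hG w hwE v hne.symm with h1 | h1
      · exfalso
        have h2 := hw1.2
        have h3 : val (lam l part w (l w v)) = - val (lam l part v (l v w)) := by
          rw [show lam l part w (l w v) = psi (lam l part v (l v w)) from hR, h.vl.anti]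
        rw [h1, hr w hne, h3] at h2
        omega
      · exact ⟨hE.sub w hwE, hne, hR, h1.1, h1.2⟩
    · left; right
      rw [mem_filter]
      exact ⟨mem_univ _, hne, hR⟩
  have h1 := card_le_card hsub
  have h2 := card_union_le (E ∪ univ.filter (fun w : V => w ≠ v ∧ ¬ Reg l psi part v w))
    (U.filter (fun w => w ≠ v ∧ Reg l psi part v w ∧ l w v = mn l w ∧
        val (lam l part w (mx l w)) < val (lam l part w (md l w))))
  have h3 := card_union_le E (univ.filter (fun w : V => w ≠ v ∧ ¬ Reg l psi part v w))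
  have h4 : ((univ.filter (fun w : V => w ≠ v ∧ ¬ Reg l psi part v w)).card : ℝ) ≤ s * nn V :=
    h.few v (hE.sub v hv)
  have h5 : ((U.filter (fun w => w ≠ v ∧ Reg l psi part v w ∧ l w v = mn l w ∧
        val (lam l part w (mx l w)) < val (lam l part w (md l w)))).card : ℝ) ≤ nn V / 4000 :=
    le_of_lt (not_le.1 hP)
  have h6 : ((univ.filter (fun w => Rad l val M dr v w)).card : ℝ) ≤ (E.card : ℝ) +
      ((univ.filter (fun w : V => w ≠ v ∧ ¬ Reg l psi part v w)).card : ℝ) +
      ((U.filter (fun w => w ≠ v ∧ Reg l psi part v w ∧ l w v = mn l w ∧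
        val (lam l part w (mx l w)) < val (lam l part w (md l w)))).card : ℝ) := by
    exact_mod_cast h1.trans (h2.trans (Nat.add_le_add_right h3 _))
  linarith

end Pool.H90BX.H44
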