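import Pool.Agent.H44.BX.Sum

set_option autoImplicit false

/-! The raising lemma (MP_d0d043_co, block R), given the lower bound for the total value. -/

namespace Pool.H90BX.H44

open Finset Pool.H90BX
open scoped Classical

variable {V : Type} [Fintype V] [DecidableEq V] {r : ℕ} {l : LS V} {psi : Fin r → Fin r}
  {part : V → Lb → Fin r} {val : Fin r → ℤ} {s : ℝ} {U E : Finset V} {K : Finset (Fin r)}

/-- raising edges between popular vertices and their witnesses -/
theorem pop_RP (h : FC l psi part val s U K) (hE : EC l psi part val s U E)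
    {M : V → (Lb × Fin r) × (Lb × Fin r)} (hM : ∀ u, IsMax val (Tab l psi part E u) (M u))
    {v w : V} (hv : v ∉ E) (hw : w ∉ E) (hne : w ≠ v) (hR : Reg l psi part v w)
    (hmn : l w v = mn l w)
    (hx : val (lam l part w (mx l w)) < val (lam l part w (md l w))) : RP l val M v w := by
  have hne1 := mx_ne_md l v
  have key : ∀ j, ∃ b, (sel b (M v)).1 ≠ j ∧ val (sel (!b) (M v)).2 = val (lam l part v j) := by
    intro j
    rcases mode_out h hE hM hv with ⟨h1, h2⟩ | ⟨h1, h2⟩
    · by_cases hj : j = mx l v
      · refine ⟨false, ?_, ?_⟩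
        · simp [sel, h2, hj, hne1.symm]
        · simp [sel, h2, hj]
      · refine ⟨true, ?_, ?_⟩
        · simp [sel, h2, Ne.symm hj]
        · rw [lam_of_ne l part v hj, ← lam_md l part v]
          simp [sel, h2]
    · by_cases hj : j = mx l v
      · refine ⟨true, ?_, ?_⟩
        · simp [sel, h2, hj, hne1.symm]
        · simp [sel, h2, hj]
      · refine ⟨false, ?_, ?_⟩
        · simp [sel, h2, Ne.symm hj]
        · rw [lam_of_ne l part v hj, ← lam_md l part v]
          simp [sel, h2]
  obtain ⟨b, hb1, hb2⟩ := key (l v w)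
  refine ⟨b, true, hne.symm, hb1, ?_, ?_⟩
  · rcases mode_out h hE hM hw with ⟨h1, h2⟩ | ⟨h1, h2⟩
    · omega
    · simp only [sel, h2, if_true]
      rw [hmn]; exact md_ne_mn l w
  · rw [hb2]
    have h3 : val (lam l part w (l w v)) = - val (lam l part v (l v w)) := by
      rw [show lam l part w (l w v) = psi (lam l part v (l v w)) from hR, h.vl.anti]
    rw [hmn, lam_mn, ← lam_md l part w] at h3
    rcases mode_out h hE hM hw with ⟨h1, h2⟩ | ⟨h1, h2⟩
    · omega
    · have h4 : val (sel (!true) (M w)).2 = val (lam l part w (mx l w)) := by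
        simp [sel, h2]
      rw [h4]; omega

theorem raise_aux (h : FC l psi part val s U K) (hE : EC l psi part val s U E)
    (M : V → (Lb × Fin r) × (Lb × Fin r)) (hM : ∀ u, IsMax val (Tab l psi part E u) (M u))
    (hWl : - (9 * s * nn V) ≤ ((∑ u, mval val (M u) : ℤ) : ℝ))
    (hW : ∑ u, mval val (M u) ≤ 0) (X : Finset V) (hX : X.card ≤ 4) (q : ℕ)
    (hq : (q : ℤ) ≤ - (∑ u, mval val (M u)) + 8) : Raises l val M X q := by
  -- numbers
  set n : ℝ := nn V with hn
  set Wt : ℤ := ∑ u, mval val (M u) with hWt
  have hs0 := h.s0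
  have hs1 := h.s1
  have hlarge := h.large
  have hn0 : (0 : ℝ) ≤ n := by rw [hn]; unfold nn; positivity
  have hsn : s * n ≤ 1 / 10 ^ 9 * n := mul_le_mul_of_nonneg_right hs1 hn0
  have hN : NN V = n - 1 := by have := nn_eq V; rw [hn]; linarith
  have hnbig : (10 : ℝ) ^ 12 ≤ n := by
    have : (1000 : ℝ) ≤ 1 / 10 ^ 9 * n := hlarge.trans hsn
    norm_num at this ⊢
    linarith
  have hEc : (E.card : ℝ) ≤ 1000 * (s * n) := by have := hE.card; linarith
  have hX' : (X.card : ℝ) ≤ 4 := by exact_mod_cast hX
  have hqR : (q : ℝ) ≤ - (Wt : ℝ) + 8 := by exact_mod_cast hq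
  have hWl' : -(9 * (s * n)) ≤ (Wt : ℝ) := by linarith
  have hW' : (Wt : ℝ) ≤ 0 := by exact_mod_cast hW
  rcases hE.popp with hA | hB
  swap
  · -- case B
    refine star_raise (P := univ.filter (fun v => v ∉ E ∧ Pop l psi part val U v)) ?_ ?_
    · have h1 : ((q + X.card : ℕ) : ℝ) ≤
          ((univ.filter (fun v => v ∉ E ∧ Pop l psi part val U v)).card : ℝ) := by
        push_cast
        linarith
      exact_mod_cast h1
    · intro v hv
      obtain ⟨hvE, hvP⟩ := (mem_filter.1 hv).2
      have hsub : (U.filter (fun w => w ≠ v ∧ Reg l psi part v w ∧ l w v = mn l w ∧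
          val (lam l part w (mx l w)) < val (lam l part w (md l w)))) ⊆
          E ∪ univ.filter (fun w => RP l val M v w) := by
        intro w hw
        obtain ⟨hw1, hw2, hw3, hw4, hw5⟩ := mem_filter.1 hw
        rw [mem_union]
        by_cases hwE : w ∈ E
        · exact Or.inl hwE
        · right
          rw [mem_filter]
          exact ⟨mem_univ _, pop_RP h hE hM hvE hwE hw2 hw3 hw4 hw5⟩
      have h1 := (card_le_card hsub).trans (card_union_le _ _)
      have h2 : n / 4000 ≤ ((U.filter (fun w => w ≠ v ∧ Reg l psi part v w ∧ l w v = mn l w ∧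
          val (lam l part w (mx l w)) < val (lam l part w (md l w)))).card : ℝ) := hvP
      have h3 : n / 4000 ≤ (E.card : ℝ) + (univ.filter (fun w => RP l val M v w)).card :=
        h2.trans (by exact_mod_cast h1)
      have h4 : ((2 * q + X.card : ℕ) : ℝ) ≤ ((univ.filter (fun w => RP l val M v w)).card : ℝ) := by
        push_cast
        norm_num at hsn
        linarith
      exact_mod_cast h4
  · -- case A
    set H : Finset V := univ.filter (fun v => v ∉ E ∧
      n / 400 ≤ ((univ.filter (fun w => Rad l val M (dr0 M) v w)).card : ℝ)) with hH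
    have hHx : ∀ v ∈ H, v ∉ E ∧ val (lam l part v (mx l v)) < val (lam l part v (md l v)) := by
      intro v hv
      obtain ⟨hvE, hvd⟩ := (mem_filter.1 hv).2
      refine ⟨hvE, ?_⟩
      by_contra hcon
      have h1 : ∀ w, w ≠ v → fv val M (dr0 M) v (l v w) = val (lam l part v (l v w)) := by
        intro w hw
        rcases good0 h hE hM v hvE w hw with h2 | h2
        · exact h2
        · exact absurd h2.2 hcon
      have h2 := deg_reg h hE (good0 h hE hM) hvE (hA v hvE) h1
      norm_num at hsn
      linarith
    by_cases hcase : q + X.card ≤ H.card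
    · refine star_raise hcase ?_
      intro v hv
      obtain ⟨hvE, hvd⟩ := (mem_filter.1 hv).2
      have h1 : (univ.filter (fun w => Rad l val M (dr0 M) v w)).card ≤
          (univ.filter (fun w => RP l val M v w)).card := by
        refine card_le_card fun w hw => ?_
        rw [mem_filter] at hw ⊢
        exact ⟨mem_univ _, rad_RP (view0 hM) hw.2⟩
      have h2 : ((2 * q + X.card : ℕ) : ℝ) ≤
          ((univ.filter (fun w => Rad l val M (dr0 M) v w)).card : ℝ) := by
        push_cast
        norm_num at hsn
        linarith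
      have h3 : 2 * q + X.card ≤ (univ.filter (fun w => Rad l val M (dr0 M) v w)).card := by
        exact_mod_cast h2
      exact h3.trans h1
    · have hHc : (H.card : ℝ) ≤ q + X.card := by
        exact_mod_cast (not_le.1 hcase).le
      have hmono : ∀ v, ((univ.filter (fun w => Rad l val M (dr1 M H) v w)).card : ℝ) ≤
          ((univ.filter (fun w => Rad l val M (dr0 M) v w)).card : ℝ) := by
        intro v
        have : (univ.filter (fun w => Rad l val M (dr1 M H) v w)).card ≤
            (univ.filter (fun w => Rad l val M (dr0 M) v w)).card := by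
          refine card_le_card fun w hw => ?_
          rw [mem_filter] at hw ⊢
          exact ⟨mem_univ _, rad_mono hM H hw.2⟩
        exact_mod_cast this
      have hdeg : ∀ v, ((univ.filter (fun w => Rad l val M (dr1 M H) v w)).card : ℝ) ≤ n / 400 := by
        intro v
        norm_num at hsn
        by_cases hvE : v ∈ E
        · have h1 := deg_E h hE hM hvE
          have h2 := hmono v
          linarith
        · by_cases hvH : v ∈ H
          · have h1 := deg_reg h hE (good1 h hE hM hHx) hvE (hA v hvE)
              (fun w _ => fv1_exc h hE hM hvE hvH (hHx v hvH).2 _)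
            linarith
          · have h2 := hmono v
            have h3 : ((univ.filter (fun w => Rad l val M (dr0 M) v w)).card : ℝ) < n / 400 := by
              by_contra hcon
              exact hvH (mem_filter.2 ⟨mem_univ _, hvE, not_lt.1 hcon⟩)
            linarith
      refine greedy_raise (Rad l val M (dr1 M H)) (fun v w hvw => rad_RP (view1 hM H) hvw)
        (fun v w hvw => rad_symm hvw) ⌊n / 400⌋₊ (fun v => Nat.le_floor (hdeg v)) q ?_
      have h1 := rad_count (l := l) h.vl.lo M (dr1 M H)
      have h2 := sum_total h hE hM hHx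
      have h3 : - ((∑ v, ∑ w ∈ univ.erase v, fv val M (dr1 M H) v (l v w) : ℤ) : ℝ) ≤
          ((univ.filter (fun p : V × V => Rad l val M (dr1 M H) p.1 p.2)).card : ℝ) := by
        exact_mod_cast h1
      have h4 : ((⌊n / 400⌋₊ : ℕ) : ℝ) ≤ n / 400 := Nat.floor_le (by positivity)
      have h5 : (2 * ((2 * (q : ℝ) + X.card) * (⌊n / 400⌋₊ : ℕ))) <
          ((univ.filter (fun p : V × V => Rad l val M (dr1 M H) p.1 p.2)).card : ℝ) := by
        rw [← hWt, ← hn, hN] at h2
        have a1 : (2 * (q : ℝ) + X.card) * (⌊n / 400⌋₊ : ℕ) ≤ (2 * (- (Wt : ℝ) + 8) + 4) * (n / 400) := by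
          apply mul_le_mul (by linarith) h4 (by positivity) (by linarith)
        have a2 : (H.card : ℝ) * (1 + s * (n - 1)) ≤ (- (Wt : ℝ) + 12) * (1 + s * n) := by
          apply mul_le_mul (by linarith) (by nlinarith) (by nlinarith) (by linarith)
        have a3 : (- (Wt : ℝ)) * (1 + s * n) ≤ (- (Wt : ℝ)) * (n / 100) := by
          apply mul_le_mul_of_nonneg_left _ (by linarith)
          norm_num at hsn hnbig
          linarith
        norm_num at hsn hnbig
        nlinarith [mul_nonneg (by linarith : (0 : ℝ) ≤ -(Wt : ℝ)) hn0,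
          mul_nonneg (by linarith : (0 : ℝ) ≤ -(Wt : ℝ)) (by linarith : (0 : ℝ) ≤ n - 1000000000000)]
      exact_mod_cast h5

end Pool.H90BX.H44
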