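import Pool.Agent.H44.BX.Local

set_option autoImplicit false

/-! The sum inequality for the raising lemma (MP_d0d043_co, block R). -/

namespace Pool.H90BX.H44

open Finset Pool.H90BX
open scoped Classical

variable {V : Type} [Fintype V] [DecidableEq V] {r : ℕ} {l : LS V} {psi : Fin r → Fin r}
  {part : V → Lb → Fin r} {val : Fin r → ℤ} {s : ℝ} {U E : Finset V} {K : Finset (Fin r)}

/-- number of raising pairs is at least minus the sum of the dropped values -/
theorem rad_count (hlo : ∀ A, -1 ≤ val A) (M : V → (Lb × Fin r) × (Lb × Fin r))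
    (dr : V → Lb → Bool) :
    - (∑ v, ∑ w ∈ univ.erase v, fv val M dr v (l v w)) ≤
      ((univ.filter (fun p : V × V => Rad l val M dr p.1 p.2)).card : ℤ) := by
  have hf : ∀ v j, -1 ≤ fv val M dr v j := by
    intro v j
    unfold fv
    split_ifs
    · exact hlo _
    · exact hlo _
  have e1 : ∑ v, ∑ w ∈ univ.erase v, fv val M dr v (l v w) =
      ∑ p : V × V, (if p.1 ≠ p.2 then fv val M dr p.1 (l p.1 p.2) else 0) := by
    rw [Fintype.sum_prod_type]
    refine sum_congr rfl fun v _ => ?_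
    rw [← sum_filter]
    refine sum_congr ?_ fun _ _ => rfl
    ext w; simp [ne_comm]
  have e2 : ∑ p : V × V, (if p.1 ≠ p.2 then fv val M dr p.1 (l p.1 p.2) else 0) =
      ∑ p : V × V, (if p.1 ≠ p.2 then fv val M dr p.2 (l p.2 p.1) else 0) := by
    rw [← Equiv.sum_comp (Equiv.prodComm V V)]
    refine sum_congr rfl fun p _ => ?_
    simp [ne_comm]
  have e3 : ((univ.filter (fun p : V × V => Rad l val M dr p.1 p.2)).card : ℤ) =
      ∑ p : V × V, (if Rad l val M dr p.1 p.2 then (1 : ℤ) else 0) := by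
    rw [card_filter]; push_cast; rfl
  have e4 : ∑ p : V × V, (-2 * (if Rad l val M dr p.1 p.2 then (1 : ℤ) else 0)) ≤
      ∑ p : V × V, ((if p.1 ≠ p.2 then fv val M dr p.1 (l p.1 p.2) else 0) +
        (if p.1 ≠ p.2 then fv val M dr p.2 (l p.2 p.1) else 0)) := by
    refine sum_le_sum fun p _ => ?_
    have h1 := hf p.1 (l p.1 p.2)
    have h2 := hf p.2 (l p.2 p.1)
    by_cases hp : p.1 ≠ p.2
    · by_cases hR : Rad l val M dr p.1 p.2
      · rw [if_pos hR, if_pos hp, if_pos hp]; omega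
      · rw [if_neg hR, if_pos hp, if_pos hp]
        have : ¬ (fv val M dr p.1 (l p.1 p.2) + fv val M dr p.2 (l p.2 p.1) < 0) :=
          fun h => hR ⟨hp, h⟩
        omega
    · have hR : ¬ Rad l val M dr p.1 p.2 := fun h => hp h.1
      rw [if_neg hR, if_neg hp, if_neg hp]; omega
  rw [sum_add_distrib, ← e2, ← e1, ← mul_sum, ← e3] at e4
  omega

/-- sum at a vertex in the basic view -/
theorem sum0 (h : FC l psi part val s U K)
    {M : V → (Lb × Fin r) × (Lb × Fin r)} (hM : ∀ u, IsMax val (Tab l psi part E u) (M u))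
    {H : Finset V} {v : V} (hv : v ∉ H) :
    ((∑ w ∈ univ.erase v, fv val M (dr1 M H) v (l v w) : ℤ) : ℝ) ≤
      (NN V - 1) / 2 * (mval val (M v) : ℝ) + val (M v).2.2 := by
  have h1 : ((∑ w ∈ univ.erase v, fv val M (dr1 M H) v (l v w) : ℤ) : ℝ) =
      ∑ i, (cnt l v i : ℝ) * (fv val M (dr1 M H) v i : ℝ) := by
    rw [← sum_label l v (fun i => (fv val M (dr1 M H) v i : ℝ))]
    push_cast; rfl
  have h2 : ∑ i, (cnt l v i : ℝ) * (fv val M (dr1 M H) v i : ℝ) =
      NN V * val (M v).2.2 + cnt l v (M v).1.1 * ((val (M v).1.2 : ℝ) - val (M v).2.2) := by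
    have h3 : ∀ i, (cnt l v i : ℝ) * (fv val M (dr1 M H) v i : ℝ) =
        cnt l v i * (val (M v).2.2 : ℝ) +
        (if i = (M v).1.1 then cnt l v i * ((val (M v).1.2 : ℝ) - val (M v).2.2) else 0) := by
      intro i
      by_cases hi : i = (M v).1.1
      · simp [fv, dr1, hv, hi]; ring
      · simp [fv, dr1, hv, hi]
    rw [sum_congr rfl (fun i _ => h3 i), sum_add_distrib, ← sum_mul, cnt_sumR]
    simp
  have h4 : ((val (M v).2.2 : ℤ) : ℝ) ≤ val (M v).1.2 := by exact_mod_cast top_le hM v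
  have h5 := two_cntR h.bdd v (M v).1.1
  rw [h1, h2]
  unfold mval
  push_cast
  nlinarith [mul_nonneg (sub_nonneg.2 h5) (sub_nonneg.2 h4)]

/-- sum at a modified vertex -/
theorem sum1 (h : FC l psi part val s U K) (hE : EC l psi part val s U E)
    {M : V → (Lb × Fin r) × (Lb × Fin r)} (hM : ∀ u, IsMax val (Tab l psi part E u) (M u))
    {H : Finset V} {v : V} (hv : v ∈ H) (hvE : v ∉ E)
    (hx : val (lam l part v (mx l v)) < val (lam l part v (md l v))) :
    ((∑ w ∈ univ.erase v, fv val M (dr1 M H) v (l v w) : ℤ) : ℝ) ≤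
      (NN V - 1) / 2 * (mval val (M v) : ℝ) + val (M v).2.2 + (1 + s * NN V) := by
  have h1 : ((∑ w ∈ univ.erase v, fv val M (dr1 M H) v (l v w) : ℤ) : ℝ) =
      ∑ i, (cnt l v i : ℝ) * (fv val M (dr1 M H) v i : ℝ) := by
    rw [← sum_label l v (fun i => (fv val M (dr1 M H) v i : ℝ))]
    push_cast; rfl
  have hb : (M v).2.1 = mx l v := by
    rcases mode_out h hE hM hvE with ⟨h1, h2⟩ | ⟨h1, h2⟩
    · omega
    · rw [h2]
  have h2 : ∑ i, (cnt l v i : ℝ) * (fv val M (dr1 M H) v i : ℝ) =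
      NN V * val (M v).1.2 - cnt l v (M v).2.1 * ((val (M v).1.2 : ℝ) - val (M v).2.2) := by
    have h3 : ∀ i, (cnt l v i : ℝ) * (fv val M (dr1 M H) v i : ℝ) =
        cnt l v i * (val (M v).1.2 : ℝ) -
        (if i = (M v).2.1 then cnt l v i * ((val (M v).1.2 : ℝ) - val (M v).2.2) else 0) := by
      intro i
      by_cases hi : i = (M v).2.1
      · simp [fv, dr1, hv, hi]; ring
      · simp [fv, dr1, hv, hi]
    rw [sum_congr rfl (fun i _ => h3 i), sum_sub_distrib, ← sum_mul, cnt_sumR]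
    simp
  have h4 : ((val (M v).2.2 : ℤ) : ℝ) ≤ val (M v).1.2 := by exact_mod_cast top_le hM v
  have h5 : NN V - 2 * cnt l v (M v).2.1 ≤ s * NN V := by
    rw [hb]; exact h.half v (hE.sub v hvE)
  have h6 : ((val (M v).1.2 : ℤ) : ℝ) ≤ 1 := by exact_mod_cast h.vl.hi _
  have h7 : (-1 : ℝ) ≤ ((val (M v).2.2 : ℤ) : ℝ) := by exact_mod_cast h.vl.lo _
  have h8 : 0 ≤ s * NN V := mul_nonneg h.s0.le (NN_pos h.bdd v).le
  rw [h1, h2]
  unfold mval
  push_cast
  nlinarith [mul_nonneg (sub_nonneg.2 h5) (sub_nonneg.2 h4), mul_nonneg h8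
    (by linarith : (0 : ℝ) ≤ 2 - ((val (M v).1.2 : ℝ) - val (M v).2.2))]

/-- sum of the smaller values -/
theorem sum_lo (h : FC l psi part val s U K) (hE : EC l psi part val s U E)
    {M : V → (Lb × Fin r) × (Lb × Fin r)} (hM : ∀ u, IsMax val (Tab l psi part E u) (M u)) :
    ((∑ v, val (M v).2.2 : ℤ) : ℝ) ≤ - (2 / 5 * nn V) + 2 * E.card := by
  let F := U.filter (fun v => val (lam l part v (mx l v)) = -1 ∨
    val (lam l part v (md l v)) = -1)
  have hF : 2 / 5 * nn V ≤ (F.card : ℝ) := h.nlo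
  have h1 : ∀ v, val (M v).2.2 ≤ (if v ∈ E then 2 else 0) - (if v ∈ F then 1 else 0) := by
    intro v
    by_cases hv : v ∈ E
    · rw [if_pos hv]
      have := h.vl.hi (M v).2.2
      split_ifs <;> omega
    · rw [if_neg hv]
      have a1 := h.vl.hi (lam l part v (mx l v))
      have a2 := h.vl.hi (lam l part v (md l v))
      have a3 := h.vl.lo (lam l part v (mx l v))
      have a4 := h.vl.lo (lam l part v (md l v))
      rcases mode_out h hE hM hv with ⟨b1, b2⟩ | ⟨b1, b2⟩
      · rw [b2]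
        show val (lam l part v (md l v)) ≤ _
        by_cases hf : v ∈ F
        · rw [if_pos hf]
          have := (mem_filter.1 hf).2
          omega
        · rw [if_neg hf]; omega
      · rw [b2]
        show val (lam l part v (mx l v)) ≤ _
        by_cases hf : v ∈ F
        · rw [if_pos hf]
          have := (mem_filter.1 hf).2
          omega
        · rw [if_neg hf]; omega
  have h2 : ∑ v, val (M v).2.2 ≤ 2 * (E.card : ℤ) - F.card := by
    refine (sum_le_sum fun v _ => h1 v).trans ?_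
    rw [sum_sub_distrib, sum_ite_mem, sum_ite_mem]
    simp
    omega
  have h3 : ((∑ v, val (M v).2.2 : ℤ) : ℝ) ≤ 2 * (E.card : ℝ) - F.card := by exact_mod_cast h2
  linarith

/-- the total -/
theorem sum_total (h : FC l psi part val s U K) (hE : EC l psi part val s U E)
    {M : V → (Lb × Fin r) × (Lb × Fin r)} (hM : ∀ u, IsMax val (Tab l psi part E u) (M u))
    {H : Finset V} (hH : ∀ v ∈ H, v ∉ E ∧
      val (lam l part v (mx l v)) < val (lam l part v (md l v))) :
    ((∑ v, ∑ w ∈ univ.erase v, fv val M (dr1 M H) v (l v w) : ℤ) : ℝ) ≤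
      (NN V - 1) / 2 * ((∑ v, mval val (M v) : ℤ) : ℝ) - 2 / 5 * nn V + 2 * E.card +
        H.card * (1 + s * NN V) := by
  have h1 : ∀ v, ((∑ w ∈ univ.erase v, fv val M (dr1 M H) v (l v w) : ℤ) : ℝ) ≤
      (NN V - 1) / 2 * (mval val (M v) : ℝ) + val (M v).2.2 +
        (if v ∈ H then (1 + s * NN V) else 0) := by
    intro v
    by_cases hv : v ∈ H
    · rw [if_pos hv]
      exact sum1 h hE hM hv (hH v hv).1 (hH v hv).2
    · rw [if_neg hv, add_zero]
      exact sum0 h hM hv
  have h2 : ((∑ v, ∑ w ∈ univ.erase v, fv val M (dr1 M H) v (l v w) : ℤ) : ℝ) ≤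
      ∑ v, ((NN V - 1) / 2 * (mval val (M v) : ℝ) + val (M v).2.2 +
        (if v ∈ H then (1 + s * NN V) else 0)) := by
    rw [Int.cast_sum]
    exact sum_le_sum fun v _ => h1 v
  have h3 := sum_lo h hE hM
  rw [Int.cast_sum] at h3
  rw [sum_add_distrib, sum_add_distrib, ← mul_sum, sum_ite_mem, univ_inter, sum_const,
    nsmul_eq_mul] at h2
  rw [Int.cast_sum (f := fun v => mval val (M v))]
  linarith

end Pool.H90BX.H44
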